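import Mathlib

/-!
Definitions for the problem on Magidor cardinals and diagonal Prikry forcing.

The ground model `V` is the universe of sets `PSet.{u}` / `ZFSet.{u}` of Mathlib, whose cardinals
and ordinals are `Cardinal.{u}` and `Ordinal.{u}`.  A statement holds in every generic extension
by a forcing notion `P` exactly when every condition of `P` forces it; we use the standard
ground-model definition of the forcing relation (Kunen, Set Theory, 1980, Chapter VII,
Definition 3.3), clause by clause.
-/

set_option autoImplicit false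

universe u v

namespace Pool.Agent.Lib.MP_6ff041_lc

open Cardinal

/-! ### Ground-model notions -/

/-- `IsMagidor c`: the cardinal `c` (identified with the well-order `c.ord.ToType` of the ordinals
below it) satisfies `c → [c]^{ℵ₀-bd}_c`: for every colouring `f` of the countably infinite bounded
subsets of `c` by elements of `c` there is `A ⊆ c` of size `c` such that the set of colours of the
countably infinite bounded subsets of `A` is not the whole of `c`. -/
def IsMagidor (c : Cardinal.{u}) : Prop :=
  ∀ f : {x : Set c.ord.ToType // Cardinal.mk x = ℵ₀ ∧ BddAbove x} → c.ord.ToType,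
    ∃ A : Set c.ord.ToType, Cardinal.mk A = c ∧ f '' {x | x.1 ⊆ A} ≠ Set.univ

/-- `U` is a normal ultrafilter (normal measure) on the uncountable cardinal `c`: it is
non-principal, `c`-complete, and every function that is regressive on a set in `U` is constant on
a set in `U`.  A cardinal is measurable exactly when it carries such an ultrafilter. -/
structure IsNormalMeasure (c : Cardinal.{u}) (U : Ultrafilter c.ord.ToType) : Prop where
  uncountable : ℵ₀ < c
  nonprincipal : ∀ a : c.ord.ToType, ({a} : Set c.ord.ToType) ∉ U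
  complete : ∀ S : Set (Set c.ord.ToType), Cardinal.mk S < c → (∀ s ∈ S, s ∈ U) → ⋂₀ S ∈ U
  normal : ∀ g : c.ord.ToType → c.ord.ToType, {a | g a < a} ∈ U → ∃ b, {a | g a = b} ∈ U

/-- Conditions `⟨α_0, …, α_{n-1}, A_n, A_{n+1}, …⟩` of the diagonal Prikry forcing for a sequence
of ultrafilters `U m` on `X m`: a stem of length `len = n` with `α_i ∈ X i`, and sets
`A_m ∈ U m` for `m ≥ n`. -/
structure Cond {X : ℕ → Type u} (U : ∀ n, Ultrafilter (X n)) : Type u where
  len : ℕ
  stem : ∀ i, i < len → X i
  upper : ∀ m, len ≤ m → Set (X m)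
  upper_mem : ∀ m (h : len ≤ m), upper m h ∈ U m

/-- `q` extends `p`: the stem of `q` is at least as long and prolongs the stem of `p`, its new
entries come from the large sets of `p`, and its large sets are subsets of those of `p`. -/
def Cond.Extends {X : ℕ → Type u} {U : ∀ n, Ultrafilter (X n)} (q p : Cond U) : Prop :=
  ∃ h : p.len ≤ q.len,
    (∀ i (hi : i < p.len), q.stem i (hi.trans_le h) = p.stem i hi) ∧
    (∀ i (hi : i < q.len) (hp : p.len ≤ i), q.stem i hi ∈ p.upper i hp) ∧
    (∀ m (hm : q.len ≤ m), q.upper m hm ⊆ p.upper m (h.trans hm))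

/-- The order of the diagonal Prikry forcing: `q ≤ p` means that `q` extends `p`. -/
instance {X : ℕ → Type u} (U : ∀ n, Ultrafilter (X n)) : Preorder (Cond U) where
  le := Cond.Extends
  le_refl p := ⟨le_rfl, fun _ _ => rfl, fun _ hi hp => absurd hi (not_lt.2 hp), fun _ _ => le_rfl⟩
  le_trans r q p := by
    rintro ⟨h1, a1, b1, c1⟩ ⟨h2, a2, b2, c2⟩
    refine ⟨h2.trans h1, fun i hi => ?_, fun i hi hp => ?_, fun m hm => ?_⟩
    · rw [← a2 i hi, ← a1 i (hi.trans_le h2)]
    · by_cases hq : i < q.len
      · rw [a1 i hq]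
        exact b2 i hq hp
      · exact c2 i (not_lt.1 hq) (b1 i hi (not_lt.1 hq))
    · exact (c1 m hm).trans (c2 m (h1.trans hm))

/-- The trivial condition `⟨X 0, X 1, …⟩` (empty stem), the largest element of the forcing. -/
def Cond.one {X : ℕ → Type u} (U : ∀ n, Ultrafilter (X n)) : Cond U where
  len := 0
  stem := fun _ hi => absurd hi (Nat.not_lt_zero _)
  upper := fun _ _ => Set.univ
  upper_mem := fun _ _ => Filter.univ_mem

/-! ### The language of set theory -/

/-- First-order formulas of the language of set theory whose variables range over `V`; a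
quantifier binds its variable as a function `V → Fm V`.  Primitive symbols: `=`, `∈`, `¬`, `∧`,
`∃`. -/
inductive Fm (V : Type v) : Type v
  | eq : V → V → Fm V
  | mem : V → V → Fm V
  | not : Fm V → Fm V
  | and : Fm V → Fm V → Fm V
  | ex : (V → Fm V) → Fm V

namespace Fm

variable {V : Type v}

/-- `φ ∨ ψ` -/
def or (φ ψ : Fm V) : Fm V := not (and (not φ) (not ψ))
/-- `φ → ψ` -/
def imp (φ ψ : Fm V) : Fm V := not (and φ (not ψ))
/-- `φ ↔ ψ` -/
def iff (φ ψ : Fm V) : Fm V := and (imp φ ψ) (imp ψ φ)
/-- `∀ x, φ x` -/
def all (φ : V → Fm V) : Fm V := not (ex fun x => not (φ x))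

/-- `x ⊆ y` -/
def sub (x y : V) : Fm V := all fun z => imp (mem z x) (mem z y)
/-- `e = ∅` -/
def isEmpty (e : V) : Fm V := all fun z => not (mem z e)
/-- `s = a ∪ {a}` -/
def isSucc (s a : V) : Fm V := all fun z => iff (mem z s) (or (mem z a) (eq z a))
/-- `w` contains `∅` and is closed under successors -/
def isInductive (w : V) : Fm V :=
  and (ex fun e => and (mem e w) (isEmpty e))
    (all fun a => imp (mem a w) (ex fun s => and (mem s w) (isSucc s a)))
/-- `w = ω`, the least inductive set -/
def isOmega (w : V) : Fm V := and (isInductive w) (all fun y => imp (isInductive y) (sub w y))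
/-- `z = {a, b}` -/
def isUPair (z a b : V) : Fm V := all fun t => iff (mem t z) (or (eq t a) (eq t b))
/-- `w = ⟨a, b⟩ = {{a}, {a, b}}` (Kuratowski pair) -/
def isPair (w a b : V) : Fm V :=
  all fun z => iff (mem z w) (or (isUPair z a a) (isUPair z a b))
/-- `⟨a, b⟩ ∈ f` -/
def app (f a b : V) : Fm V := ex fun w => and (mem w f) (isPair w a b)
/-- the relation `f` is single-valued -/
def functional (f : V) : Fm V :=
  all fun a => all fun b => all fun c => imp (and (app f a b) (app f a c)) (eq b c)
/-- the relation `f` is one-to-one -/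
def injective (f : V) : Fm V :=
  all fun a => all fun b => all fun c => imp (and (app f a c) (app f b c)) (eq a b)
/-- `g` is a bijection from `x` onto `y` -/
def bij (g x y : V) : Fm V :=
  and (all fun w => imp (mem w g)
        (ex fun a => ex fun b => and (isPair w a b) (and (mem a x) (mem b y))))
  (and (all fun a => imp (mem a x) (ex fun b => app g a b))
  (and (all fun b => imp (mem b y) (ex fun a => app g a b))
  (and (functional g) (injective g))))
/-- `|x| = |y|` -/
def equinum (x y : V) : Fm V := ex fun g => bij g x y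
/-- `|x| = ℵ₀` -/
def countablyInfinite (x : V) : Fm V := ex fun w => and (isOmega w) (equinum w x)
/-- `l` is an ordinal: a transitive set on which `∈` is trichotomous -/
def isOrdinal (l : V) : Fm V :=
  and (all fun y => imp (mem y l) (sub y l))
    (all fun y => all fun z =>
      imp (and (mem y l) (mem z l)) (or (mem y z) (or (eq y z) (mem z y))))
/-- `l` is a cardinal: an ordinal not equinumerous with any smaller ordinal -/
def isCardinal (l : V) : Fm V :=
  and (isOrdinal l) (all fun y => imp (mem y l) (not (equinum y l)))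
/-- `sup x < l`: some `b ∈ l` is `≥` every element of `x` -/
def boundedIn (x l : V) : Fm V :=
  ex fun b => and (mem b l) (all fun z => imp (mem z x) (or (mem z b) (eq z b)))
/-- `x ∈ [A]^{ℵ₀-bd}`: `x` is a countably infinite subset of `A` that is bounded in `l` -/
def inBd (x A l : V) : Fm V := and (sub x A) (and (countablyInfinite x) (boundedIn x l))
/-- `f` is a function from `[l]^{ℵ₀-bd}` to `l` -/
def isColouring (f l : V) : Fm V :=
  and (all fun w => imp (mem w f)
        (ex fun x => ex fun c => and (isPair w x c) (and (inBd x l l) (mem c l))))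
  (and (all fun x => imp (inBd x l l) (ex fun c => app f x c)) (functional f))
/-- `f''[A]^{ℵ₀-bd} = l` -/
def imageIs (f A l : V) : Fm V :=
  all fun c => iff (mem c l) (ex fun x => and (inBd x A l) (app f x c))
/-- `l` is a Magidor cardinal: `l` is a cardinal and for every `f : [l]^{ℵ₀-bd} → l` there is
`A ⊆ l` with `|A| = |l|` and `f''[A]^{ℵ₀-bd} ≠ l`. -/
def magidor (l : V) : Fm V :=
  and (isCardinal l)
    (all fun f => imp (isColouring f l)
      (ex fun A => and (sub A l) (and (equinum A l) (not (imageIs f A l)))))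

end Fm

/-! ### Names and the forcing relation -/

/-- `P`-names: a name is a set of pairs `⟨σ, r⟩` of a name `σ` and a condition `r`, given as a
family `⟨A a, c a⟩` indexed by `a : α`. -/
inductive PName (P : Type u) : Type (u + 1)
  | mk (α : Type u) (A : α → PName P) (c : α → P) : PName P

/-- The canonical name `x̌ = {⟨y̌, 1⟩ : y ∈ x}` of a ground-model set `x`. -/
def check {P : Type u} (one : P) : PSet.{u} → PName P
  | ⟨α, A⟩ => ⟨α, fun a => check one (A a), fun _ => one⟩

section

variable {P : Type u} [Preorder P]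

/-- `D` is dense below `p`. -/
def DenseBelow (D : Set P) (p : P) : Prop := ∀ q ≤ p, ∃ r ≤ q, r ∈ D

/-- `p ⊩ τ₁ = τ₂` (Kunen VII.3.3(a)). -/
def ForcesEq : PName P → PName P → P → Prop
  | ⟨_, A, c⟩, ⟨_, B, d⟩, p =>
    (∀ a, DenseBelow {q | q ≤ c a → ∃ b, q ≤ d b ∧ ForcesEq (A a) (B b) q} p) ∧
    (∀ b, DenseBelow {q | q ≤ d b → ∃ a, q ≤ c a ∧ ForcesEq (A a) (B b) q} p)

/-- `p ⊩ τ₁ ∈ τ₂` (Kunen VII.3.3(b)). -/
def ForcesMem : PName P → PName P → P → Prop
  | σ, ⟨_, B, d⟩, p => DenseBelow {q | ∃ b, q ≤ d b ∧ ForcesEq (B b) σ q} p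

/-- The forcing relation `p ⊩ φ` for formulas with names as parameters (Kunen VII.3.3). -/
def Forces : Fm (PName P) → P → Prop
  | .eq σ τ, p => ForcesEq σ τ p
  | .mem σ τ, p => ForcesMem σ τ p
  | .not φ, p => ¬ ∃ q ≤ p, Forces φ q
  | .and φ ψ, p => Forces φ p ∧ Forces ψ p
  | .ex φ, p => DenseBelow {r | ∃ σ, Forces (φ σ) r} p

end

end Pool.Agent.Lib.MP_6ff041_lc
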