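import Pool.Agent.Lib.MP_6ff041_lc.Prikry

/-! The ground-model combinatorial core: a closed game, its ranks, and the dichotomy. -/

set_option autoImplicit false

universe u

namespace Pool.Agent.Lib.MP_6ff041_lc

open Cardinal Function

variable {X : ℕ → Type u} {U : ∀ n, Ultrafilter (X n)} {L : Type u}

/-- legal positions at stage `n`: graphs of one-to-one maps inside `M n × M n` whose domain grows
at the rate `h` -/
structure Legal (M : ℕ → Set L) (h : ℕ → ℕ) (n : ℕ) (E : Set (L × L)) : Prop where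
  sub : ∀ i j, (i, j) ∈ E → i ∈ M n ∧ j ∈ M n
  fn : ∀ i j j', (i, j) ∈ E → (i, j') ∈ E → j = j'
  inj : ∀ i i' j, (i, j) ∈ E → (i', j) ∈ E → i = i'
  dom : ∀ m, h m ≤ n → ∀ i ∈ M m, ∃ j, (i, j) ∈ E

/-- end extension above `M n` -/
def EndExt (M : ℕ → Set L) (n : ℕ) (E E' : Set (L × L)) : Prop :=
  E ⊆ E' ∧ ∀ i j, (i, j) ∈ E' → j ∈ M n → (i, j) ∈ E

/-- the colour `γ` is decided for a countably infinite subset of the range of `E` -/
def Hit (Val : ℕ → (∀ i, X i) → Set L → L → Prop) (γ : L) (n : ℕ) (t : ∀ i, X i)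
    (E : Set (L × L)) : Prop :=
  ∃ x : Set L, (∀ j ∈ x, ∃ i, (i, j) ∈ E) ∧ #x = ℵ₀ ∧ Val n t x γ

/-- positions lost for the closed player, with an ordinal rank -/
inductive Lose (U : ∀ n, Ultrafilter (X n)) (M : ℕ → Set L)
    (Val : ℕ → (∀ i, X i) → Set L → L → Prop) (γ : L) (h : ℕ → ℕ) :
    Ordinal.{u} → ℕ → (∀ i, X i) → Set (L × L) → Prop
  | hit (ξ : Ordinal.{u}) (n : ℕ) (t : ∀ i, X i) (E : Set (L × L)) :
      Hit Val γ n t E → Lose U M Val γ h ξ n t E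
  | step (ξ : Ordinal.{u}) (n : ℕ) (t : ∀ i, X i) (E : Set (L × L)) (C : Set (X n))
      (r : X n → Set (L × L) → Ordinal.{u}) :
      C ∈ U n → (∀ b E', r b E' < ξ) →
      (∀ b ∈ C, ∀ E', Legal M h (n + 1) E' → EndExt M n E E' →
        Lose U M Val γ h (r b E') (n + 1) (update t n b) E') →
      Lose U M Val γ h ξ n t E

section

variable {M : ℕ → Set L} {Val : ℕ → (∀ i, X i) → Set L → L → Prop} {γ : L} {h : ℕ → ℕ}

theorem Lose.inv {ξ : Ordinal.{u}} {n : ℕ} {t : ∀ i, X i} {E : Set (L × L)}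
    (H : Lose U M Val γ h ξ n t E) (hn : ¬ Hit Val γ n t E) :
    {b | ∀ E', Legal M h (n + 1) E' → EndExt M n E E' →
      ∃ ζ < ξ, Lose U M Val γ h ζ (n + 1) (update t n b) E'} ∈ U n := by
  cases H with
  | hit _ _ _ _ hh => exact absurd hh hn
  | step _ _ _ _ C r hC hr hs =>
    exact Filter.mem_of_superset (f := (U n : Filter (X n))) hC
      fun b hb E' h1 h2 => ⟨r b E', hr b E', hs b hb E' h1 h2⟩

theorem not_lose_step {n : ℕ} {t : ∀ i, X i} {E : Set (L × L)}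
    (H : ∀ ξ, ¬ Lose U M Val γ h ξ n t E) :
    {b | ∃ E', Legal M h (n + 1) E' ∧ EndExt M n E E' ∧
      ∀ ζ, ¬ Lose U M Val γ h ζ (n + 1) (update t n b) E'} ∈ U n := by
  classical
  by_contra hc
  have hc' := (Ultrafilter.compl_mem_iff_notMem).2 hc
  have key : ∀ b E', ∃ ζ : Ordinal.{u}, b ∈ {b | ∃ E', Legal M h (n + 1) E' ∧ EndExt M n E E' ∧
      ∀ ζ, ¬ Lose U M Val γ h ζ (n + 1) (update t n b) E'}ᶜ → Legal M h (n + 1) E' →
      EndExt M n E E' → Lose U M Val γ h ζ (n + 1) (update t n b) E' := by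
    intro b E'
    by_cases hb : ∃ ζ, Lose U M Val γ h ζ (n + 1) (update t n b) E'
    · obtain ⟨ζ, hζ⟩ := hb
      exact ⟨ζ, fun _ _ _ => hζ⟩
    · refine ⟨0, fun hb' h1 h2 => ?_⟩
      exact absurd ⟨E', h1, h2, fun ζ hζ => hb ⟨ζ, hζ⟩⟩ hb'
  choose r hr using key
  refine H ((⨆ z : X n × Set (L × L), r z.1 z.2) + 1) (Lose.step _ n t E _ r hc' ?_ ?_)
  · intro b E'
    exact (Ordinal.le_iSup (fun z : X n × Set (L × L) => r z.1 z.2) (b, E')).trans_lt
      (lt_add_one _)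
  · intro b hb E' h1 h2
    exact hr b E' hb h1 h2

end

variable {κ : ℕ → Cardinal.{u}}

/-- The closed player has a winning strategy from a position that has no rank. -/
theorem Setup.strategy (S : Setup κ U) {M : ℕ → Set L}
    {Val : ℕ → (∀ i, X i) → Set L → L → Prop} {γ : L} {h : ℕ → ℕ} (A : Big U)
    {n₁ : ℕ} {t₁ : ∀ i, X i} (ht₁ : t₁ ∈ TT U n₁) {E₁ : Set (L × L)} (hE₁ : Legal M h n₁ E₁)
    (H : ∀ ξ, ¬ Lose U M Val γ h ξ n₁ t₁ E₁) :
    ∃ (C : Big U) (E : ℕ → (∀ i, X i) → Set (L × L)), (∀ m, C.1 m ⊆ A.1 m) ∧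
      (∀ n w w', (∀ i < n, w i = w' i) → E n w = E n w') ∧
      ∀ n w B, cnd n w B ≤ cnd n₁ t₁ C →
        Legal M h n (E n w) ∧ ¬ Hit Val γ n (tr U n w) (E n w) ∧
          ∀ k, n₁ ≤ k → k < n → EndExt M k (E k w) (E (k + 1) w) := by
  classical
  have hnext : ∀ n (t : ∀ i, X i) (E : Set (L × L)) (b : X n), ∃ E' : Set (L × L),
      (∃ E', Legal M h (n + 1) E' ∧ EndExt M n E E' ∧
        ∀ ζ, ¬ Lose U M Val γ h ζ (n + 1) (update t n b) E') →
      Legal M h (n + 1) E' ∧ EndExt M n E E' ∧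
        ∀ ζ, ¬ Lose U M Val γ h ζ (n + 1) (update t n b) E' := by
    intro n t E b
    by_cases hb : ∃ E', Legal M h (n + 1) E' ∧ EndExt M n E E' ∧
        ∀ ζ, ¬ Lose U M Val γ h ζ (n + 1) (update t n b) E'
    · obtain ⟨E', hE'⟩ := hb
      exact ⟨E', fun _ => hE'⟩
    · exact ⟨∅, fun hb' => absurd hb' hb⟩
  choose next hnext using hnext
  let E : ℕ → (∀ i, X i) → Set (L × L) := fun n w =>
    Nat.rec E₁ (fun k Ek => if n₁ ≤ k then next k (tr U k w) Ek (w k) else E₁) n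
  have hE0 : ∀ n w, n ≤ n₁ → E n w = E₁ := by
    intro n w hn
    cases n with
    | zero => rfl
    | succ k =>
      show (if n₁ ≤ k then _ else E₁) = E₁
      rw [if_neg (by omega)]
  have hEs : ∀ k w, n₁ ≤ k → E (k + 1) w = next k (tr U k w) (E k w) (w k) := by
    intro k w hk
    show (if n₁ ≤ k then _ else E₁) = _
    rw [if_pos hk]
  have hEc : ∀ n w w', (∀ i < n, w i = w' i) → E n w = E n w' := by
    intro n
    induction n with
    | zero => intro w w' _; rfl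
    | succ k ih =>
      intro w w' hw
      by_cases hk : n₁ ≤ k
      · have h1 : ∀ i < k, w i = w' i := fun i hi => hw i (by omega)
        rw [hEs k w hk, hEs k w' hk, ih w w' h1, tr_congr h1, hw k (by omega)]
      · rw [hE0 (k + 1) w (by omega), hE0 (k + 1) w' (by omega)]
  let G : ∀ m, (∀ i, X i) → Set (X m) := fun m s =>
    {b | (∀ ξ, ¬ Lose U M Val γ h ξ m s (E m s)) →
      ∃ E', Legal M h (m + 1) E' ∧ EndExt M m (E m s) E' ∧
        ∀ ζ, ¬ Lose U M Val γ h ζ (m + 1) (update s m b) E'}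
  have hG : ∀ m s, G m s ∈ U m := by
    intro m s
    by_cases hs : ∀ ξ, ¬ Lose U M Val γ h ξ m s (E m s)
    · exact Filter.mem_of_superset (f := (U m : Filter (X m))) (not_lose_step hs)
        fun b hb _ => hb
    · exact Filter.mem_of_superset (f := (U m : Filter (X m))) Filter.univ_mem
        fun b _ hs' => absurd hs' hs
  obtain ⟨C1, hC1⟩ := S.inter fun _ s => ⟨fun m => G m s, fun m => hG m s⟩
  refine ⟨⟨fun m => A.1 m ∩ C1.1 m, fun m =>
    Filter.inter_mem (f := (U m : Filter (X m))) (A.2 m) (C1.2 m)⟩, E,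
    fun m => Set.inter_subset_left, hEc, fun n w B hle => ?_⟩
  obtain ⟨hn, a1, a2, -⟩ := cnd_le_cnd.1 hle
  have key : ∀ k, n₁ ≤ k → k ≤ n →
      (Legal M h k (E k w) ∧ ∀ ξ, ¬ Lose U M Val γ h ξ k (tr U k w) (E k w)) ∧
      ∀ j, n₁ ≤ j → j < k → EndExt M j (E j w) (E (j + 1) w) := by
    intro k hk
    induction k, hk using Nat.le_induction with
    | base =>
      intro _
      rw [hE0 _ _ le_rfl, tr_congr a1, tr_of_mem ht₁]
      exact ⟨⟨hE₁, H⟩, fun j h1 h2 => by omega⟩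
    | succ k hk ih =>
      intro hkn
      obtain ⟨⟨-, hN⟩, hext⟩ := ih (by omega)
      have hwk : w k ∈ G k (tr U k w) :=
        hC1 k _ (tr_mem k w) k le_rfl (a2 k hk (by omega)).2
      have hEk : E k (tr U k w) = E k w := hEc k _ _ fun i hi => tr_lt w hi
      simp only [G, Set.mem_ofPred_eq, hEk] at hwk
      obtain ⟨b1, b2, b3⟩ := hnext k _ _ _ (hwk hN)
      rw [← hEs k w hk] at b1 b2 b3
      rw [← tr_succ] at b3
      refine ⟨⟨b1, b3⟩, fun j h1 h2 => ?_⟩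
      by_cases hjk : j = k
      · subst hjk
        exact b2
      · exact hext j h1 (by omega)
  obtain ⟨⟨b1, b2⟩, b3⟩ := key n hn le_rfl
  exact ⟨b1, fun hh => b2 0 (Lose.hit _ _ _ _ hh), b3⟩

/-- If all legal positions have a rank, a single ground-model sequence defeats every ground-model
enumeration. -/
theorem Setup.ground (S : Setup κ U) [LinearOrder L] {M : ℕ → Set L}
    (hMmono : Monotone M) (hMlow : ∀ n i j, i ≤ j → j ∈ M n → i ∈ M n)
    (hMcov : ∀ i, ∃ n, i ∈ M n) (hMbdd : ∀ n, BddAbove (M n))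
    (hMcard : ∀ n, #(M n) < κ n) (hpow : ∀ n c, c < κ n → 2 ^ c < κ n)
    {Val : ℕ → (∀ i, X i) → Set L → L → Prop} (A : Big U)
    {n₀ : ℕ} {t₀ : ∀ i, X i} (ht₀ : t₀ ∈ TT U n₀)
    (H : ∀ n t, t ∈ TT U n → cnd n t A ≤ cnd n₀ t₀ A → ∀ γ ∈ M n, ∀ h E, Legal M h n E →
      ∃ ξ, Lose U M Val γ h ξ n t E) :
    ∃ s : ℕ → ∀ i, X i, (∀ k, cnd (n₀ + k) (s k) A ≤ cnd n₀ t₀ A) ∧
      (∀ k, cnd (n₀ + (k + 1)) (s (k + 1)) A ≤ cnd (n₀ + k) (s k) A) ∧
      ∀ e : L → L, StrictMono e → (∀ i, i ≤ e i) → ∀ γ, ∃ k x, x ⊆ Set.range e ∧ #x = ℵ₀ ∧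
        BddAbove x ∧ Val (n₀ + k) (s k) x γ := by
  classical
  let ρ : L → (ℕ → ℕ) → ℕ → (∀ i, X i) → Set (L × L) → Ordinal.{u} := fun γ h n t E =>
    sInf {ξ | Lose U M Val γ h ξ n t E}
  let G : L → (ℕ → ℕ) → ∀ n, (∀ i, X i) → Set (L × L) → Set (X n) := fun γ h n t E =>
    {b | (∃ ξ, Lose U M Val γ h ξ n t E) → ¬ Hit Val γ n t E →
      ∀ E', Legal M h (n + 1) E' → EndExt M n E E' →
        ∃ ζ < ρ γ h n t E, Lose U M Val γ h ζ (n + 1) (update t n b) E'}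
  have hG : ∀ γ h n t E, G γ h n t E ∈ U n := by
    intro γ h n t E
    by_cases h1 : ∃ ξ, Lose U M Val γ h ξ n t E
    · by_cases h2 : Hit Val γ n t E
      · exact Filter.mem_of_superset (f := (U n : Filter (X n))) Filter.univ_mem
          fun b _ _ h2' => absurd h2 h2'
      · have : Lose U M Val γ h (ρ γ h n t E) n t E := csInf_mem h1
        exact Filter.mem_of_superset (f := (U n : Filter (X n))) (this.inv h2)
          fun b hb _ _ => hb
    · exact Filter.mem_of_superset (f := (U n : Filter (X n))) Filter.univ_mem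
        fun b _ h1' => absurd h1' h1
  have hpick : ∀ n (t : ∀ i, X i), ∃ b ∈ A.1 n, ∀ γ ∈ M n, ∀ h, ∀ E : Set (L × L),
      (∀ i j, (i, j) ∈ E → i ∈ M n ∧ j ∈ M n) → b ∈ G γ h n t E := by
    intro n t
    let ι : Type u := M n × ULift.{u} (ℕ → ℕ) × Set (M n × M n)
    have hι : #ι < κ n := by
      have hω := (S.unc n).le
      simp only [ι, mk_prod, lift_id, mk_set, mk_uLift]
      refine mul_lt_of_lt hω (hMcard n) (mul_lt_of_lt hω ?_
        (hpow n _ (mul_lt_of_lt hω (hMcard n) (hMcard n))))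
      have : Cardinal.lift.{u, 0} #(ℕ → ℕ) = 2 ^ (ℵ₀ : Cardinal.{u}) := by simp
      rw [this]
      exact hpow n _ (S.unc n)
    let emb : Set (M n × M n) → Set (L × L) := fun E => (fun z => (z.1.1, z.2.1)) '' E
    have hI : ⋂ z : ι, G z.1.1 z.2.1.down n t (emb z.2.2) ∈ U n :=
      S.comp n _ hι fun z => hG _ _ _ _ _
    obtain ⟨b, hbA, hb⟩ := Ultrafilter.nonempty_of_mem
      (Filter.inter_mem (f := (U n : Filter (X n))) (A.2 n) hI)
    refine ⟨b, hbA, fun γ hγ h E hE => ?_⟩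
    have hb' := Set.mem_iInter.1 hb
      (⟨γ, hγ⟩, ⟨h⟩, {z : M n × M n | (z.1.1, z.2.1) ∈ E})
    have hemb : emb {z : M n × M n | (z.1.1, z.2.1) ∈ E} = E := by
      ext ⟨i, j⟩
      simp only [emb, Set.mem_image, Set.mem_ofPred_eq, Prod.mk.injEq]
      constructor
      · rintro ⟨z, hz, rfl, rfl⟩
        exact hz
      · intro hij
        exact ⟨(⟨i, (hE i j hij).1⟩, ⟨j, (hE i j hij).2⟩), hij, rfl, rfl⟩
    simpa only [hemb] using hb'
  choose pick hpickA hpick using hpick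
  let s : ℕ → ∀ i, X i := fun k =>
    Nat.rec t₀ (fun k sk => update sk (n₀ + k) (pick (n₀ + k) sk)) k
  have hs : ∀ k, s (k + 1) = update (s k) (n₀ + k) (pick (n₀ + k) (s k)) := fun _ => rfl
  have hsT : ∀ k, s k ∈ TT U (n₀ + k) := by
    intro k
    induction k with
    | zero => exact ht₀
    | succ k ih => exact update_mem_TT ih _
  have hstep : ∀ k, cnd (n₀ + (k + 1)) (s (k + 1)) A ≤ cnd (n₀ + k) (s k) A := by
    intro k
    refine cnd_le_cnd.2 ⟨by omega, fun i hi => ?_, fun i h1 h2 => ?_, fun _ _ => le_rfl⟩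
    · rw [hs, update_of_ne (by omega)]
    · obtain rfl : i = n₀ + k := by omega
      rw [hs, update_self]
      exact hpickA _ _
  have hle : ∀ k, cnd (n₀ + k) (s k) A ≤ cnd n₀ t₀ A := by
    intro k
    induction k with
    | zero => exact le_rfl
    | succ k ih => exact (hstep k).trans ih
  refine ⟨s, hle, hstep, fun e he hie γ => ?_⟩
  have hrate : ∀ m, ∃ n, ∀ i ∈ M m, e i ∈ M n := by
    intro m
    obtain ⟨b, hb⟩ := hMbdd m
    obtain ⟨n, hn⟩ := hMcov (e b)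
    exact ⟨n, fun i hi => hMlow n _ _ (he.monotone (hb hi)) hn⟩
  choose h hh using hrate
  let E : ℕ → Set (L × L) := fun n => {z | e z.1 = z.2 ∧ z.2 ∈ M n}
  have hEsub : ∀ n i j, (i, j) ∈ E n → i ∈ M n ∧ j ∈ M n := by
    rintro n i j ⟨h1, h2⟩
    simp only at h1 h2
    exact ⟨hMlow n _ _ (h1 ▸ hie i) h2, h2⟩
  have hEleg : ∀ n, Legal M h n (E n) := by
    intro n
    refine ⟨hEsub n, ?_, ?_, ?_⟩
    · rintro i j j' ⟨h1, -⟩ ⟨h2, -⟩
      exact h1.symm.trans h2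
    · rintro i i' j ⟨h1, -⟩ ⟨h2, -⟩
      exact he.injective (h1.trans h2.symm)
    · intro m hm i hi
      exact ⟨e i, rfl, hMmono hm (hh m i hi)⟩
  have hEext : ∀ n, EndExt M n (E n) (E (n + 1)) := by
    intro n
    refine ⟨?_, ?_⟩
    · rintro z ⟨h1, h2⟩
      exact ⟨h1, hMmono (Nat.le_succ n) h2⟩
    · rintro i j ⟨h1, -⟩ h2
      exact ⟨h1, h2⟩
  obtain ⟨m, hm⟩ := hMcov γ
  have key : ∀ ξ : Ordinal.{u}, ∀ k, m ≤ k → ρ γ h (n₀ + k) (s k) (E (n₀ + k)) = ξ →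
      ∃ k, Hit Val γ (n₀ + k) (s k) (E (n₀ + k)) := by
    intro ξ
    induction ξ using WellFoundedLT.induction with
    | ind ξ ih =>
      intro k hk hρ
      by_cases hhit : Hit Val γ (n₀ + k) (s k) (E (n₀ + k))
      · exact ⟨k, hhit⟩
      · have hγ : γ ∈ M (n₀ + k) := hMmono (by omega) hm
        have h1 := H (n₀ + k) (s k) (hsT k) (hle k) γ hγ h _ (hEleg _)
        obtain ⟨ζ, hζ, hL⟩ := hpick (n₀ + k) (s k) γ hγ h _ (hEsub _) h1 hhit _
          (hEleg _) (hEext _)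
        rw [← hs] at hL
        refine ih (ρ γ h (n₀ + (k + 1)) (s (k + 1)) (E (n₀ + (k + 1)))) ?_ (k + 1) (by omega) rfl
        have hle' : ρ γ h (n₀ + (k + 1)) (s (k + 1)) (E (n₀ + (k + 1))) ≤ ζ :=
          csInf_le' (s := {ξ | Lose U M Val γ h ξ (n₀ + (k + 1)) (s (k + 1)) (E (n₀ + (k + 1)))}) hL
        exact hle'.trans_lt (hρ ▸ hζ)
  obtain ⟨k, x, hx, hxc, hv⟩ := key _ m le_rfl rfl
  refine ⟨k, x, fun j hj => ?_, hxc, (hMbdd (n₀ + k)).mono fun j hj => ?_, hv⟩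
  · obtain ⟨i, hi, -⟩ := hx j hj
    exact ⟨i, hi⟩
  · obtain ⟨i, -, hi⟩ := hx j hj
    exact hi

end Pool.Agent.Lib.MP_6ff041_lc
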