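import Pool.Agent.Lib.MP_6ff041_lc.Check
import Pool.Agent.Lib.MP_6ff041_lc.Game

/-! Ground-model facts on normal measures and on the levels of the limit cardinal. -/

set_option autoImplicit false

universe u

namespace Pool.Agent.Lib.MP_6ff041_lc

open Cardinal Function Ordinal

section Measures

theorem IsNormalMeasure.iInter_mem {c : Cardinal.{u}} {U : Ultrafilter c.ord.ToType}
    (h : IsNormalMeasure c U) {ι : Type u} (s : ι → Set c.ord.ToType) (hι : #ι < c)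
    (hs : ∀ i, s i ∈ U) : ⋂ i, s i ∈ U := by
  rw [← Set.sInter_range]
  refine h.complete _ (mk_range_le.trans_lt hι) ?_
  rintro _ ⟨i, rfl⟩
  exact hs i

theorem IsNormalMeasure.two_pow_lt {c : Cardinal.{u}} {U : Ultrafilter c.ord.ToType}
    (h : IsNormalMeasure c U) (d : Cardinal.{u}) (hd : d < c) : 2 ^ d < c := by
  classical
  by_contra hc
  have h1 : #c.ord.ToType ≤ #(Set d.out) := by
    rw [mk_ord_toType, mk_set, mk_out]
    exact not_lt.1 hc
  obtain ⟨j⟩ := (Cardinal.le_def _ _).1 h1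
  have hS : ∀ a : d.out, ∃ s ∈ U, ∀ x ∈ s, ∀ y ∈ s, (a ∈ j x ↔ a ∈ j y) := by
    intro a
    rcases U.mem_or_compl_mem {x | a ∈ j x} with h' | h'
    · exact ⟨_, h', fun x hx y hy => ⟨fun _ => hy, fun _ => hx⟩⟩
    · exact ⟨_, h', fun x hx y hy => ⟨fun h'' => absurd h'' hx, fun h'' => absurd h'' hy⟩⟩
  choose s hsU hs using hS
  have hI := h.iInter_mem s (by rwa [mk_out]) hsU
  obtain ⟨x, hx⟩ := Ultrafilter.nonempty_of_mem hI
  have hsub : ⋂ a, s a ⊆ {x} := fun y hy => j.injective (Set.ext fun a =>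
    hs a y (Set.mem_iInter.1 hy a) x (Set.mem_iInter.1 hx a))
  exact h.nonprincipal x (Filter.mem_of_superset (f := (U : Filter c.ord.ToType)) hI hsub)

theorem setup_of_normal {κ : ℕ → Cardinal.{u}} {U : ∀ n, Ultrafilter (κ n).ord.ToType}
    (hκ : StrictMono κ) (hU : ∀ n, IsNormalMeasure (κ n) (U n)) : Setup κ U where
  comp n _ s hι hs := (hU n).iInter_mem s hι hs
  small n m h := by rw [mk_ord_toType]; exact hκ h
  unc n := (hU n).uncountable
  mono := hκ.monotone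

end Measures

section Levels

variable (κ : ℕ → Cardinal.{u}) (lam : Cardinal.{u})

/-- the ordinals below `κ (n - 1)` -/
def lev : ℕ → Set lam.ord.ToType
  | 0 => ∅
  | n + 1 => {i | (i : Ordinal.{u}) < (κ n).ord}

variable {κ lam}

theorem coe_lt (i : lam.ord.ToType) : (i : Ordinal.{u}) < lam.ord := (ToType.toOrd i).2

theorem coe_le_coe {i j : lam.ord.ToType} : (i : Ordinal.{u}) ≤ (j : Ordinal.{u}) ↔ i ≤ j :=
  ToType.mk.symm.le_iff_le

theorem coe_inj {i j : lam.ord.ToType} (h : (i : Ordinal.{u}) = (j : Ordinal.{u})) : i = j :=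
  le_antisymm (coe_le_coe.1 h.le) (coe_le_coe.1 h.ge)

theorem exists_coe {a : Ordinal.{u}} (ha : a < lam.ord) :
    ∃ i : lam.ord.ToType, (i : Ordinal.{u}) = a :=
  ⟨ToType.mk ⟨a, ha⟩, by simp⟩

theorem lev_mono (hκ : StrictMono κ) : Monotone (lev κ lam) := by
  refine monotone_nat_of_le_succ fun n => ?_
  cases n with
  | zero => exact Set.empty_subset _
  | succ n =>
    intro i hi
    have hi' : (i : Ordinal.{u}) < (κ n).ord := hi
    show (i : Ordinal.{u}) < (κ (n + 1)).ord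
    exact lt_of_lt_of_le hi' (ord_le_ord.2 (hκ.monotone (Nat.le_succ n)))

theorem lev_low (n : ℕ) (i j : lam.ord.ToType) (h : i ≤ j) (hj : j ∈ lev κ lam n) :
    i ∈ lev κ lam n := by
  cases n with
  | zero => exact hj
  | succ n => exact lt_of_le_of_lt (coe_le_coe.2 h) hj

theorem kappa_lt (hκ : StrictMono κ) (hlam : lam = ⨆ n, κ n) (n : ℕ) : κ n < lam := by
  rw [hlam]
  exact (hκ (Nat.lt_succ_self n)).trans_le (le_ciSup Cardinal.bddAbove_of_small (n + 1))

theorem exists_lt_kappa (hlam : lam = ⨆ n, κ n) {a : Ordinal.{u}} (ha : a < lam.ord) :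
    ∃ n, a < (κ n).ord := by
  rw [lt_ord, hlam] at ha
  obtain ⟨n, hn⟩ := (lt_ciSup_iff Cardinal.bddAbove_of_small).1 ha
  exact ⟨n, lt_ord.2 hn⟩

theorem lev_cov (hlam : lam = ⨆ n, κ n) (i : lam.ord.ToType) : ∃ n, i ∈ lev κ lam n := by
  obtain ⟨n, hn⟩ := exists_lt_kappa hlam (coe_lt i)
  exact ⟨n + 1, hn⟩

theorem lev_bdd (hκ : StrictMono κ) (hlam : lam = ⨆ n, κ n) (n : ℕ) :
    BddAbove (lev κ lam n) := by
  obtain ⟨b, hb⟩ := exists_coe (ord_lt_ord.2 (kappa_lt hκ hlam n))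
  refine ⟨b, fun i hi => coe_le_coe.1 ?_⟩
  have := lev_mono (lam := lam) hκ (Nat.le_succ n) hi
  exact hb ▸ le_of_lt this

theorem lev_card (hκ : StrictMono κ) (hunc : ∀ n, ℵ₀ < κ n) (n : ℕ) :
    #(lev κ lam n) < κ n := by
  cases n with
  | zero =>
    rw [lev, mk_eq_zero]
    exact aleph0_pos.trans (hunc 0)
  | succ n =>
    refine lt_of_le_of_lt ?_ (hκ (Nat.lt_succ_self n))
    rw [← mk_ord_toType (κ n)]
    refine mk_le_of_injective
      (f := fun i : lev κ lam (n + 1) => ToType.mk ⟨(i.1 : Ordinal.{u}), i.2⟩) ?_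
    intro i j hij
    have h2 := (ToType.mk (o := (κ n).ord)).injective hij
    exact Subtype.ext (coe_inj (Subtype.mk.inj h2))

theorem lev_card_succ (hκ : StrictMono κ) (hlam : lam = ⨆ n, κ n) (n : ℕ) :
    κ n ≤ #(lev κ lam (n + 1)) := by
  have h : (κ n).ord < lam.ord := ord_lt_ord.2 (kappa_lt hκ hlam n)
  conv_lhs => rw [← mk_ord_toType (κ n)]
  have : ∀ a : (κ n).ord.ToType, ∃ i : lev κ lam (n + 1), (i.1 : Ordinal.{u}) = a := by
    intro a
    obtain ⟨i, hi⟩ := exists_coe ((coe_lt a).trans h)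
    exact ⟨⟨i, by simpa [lev, hi] using coe_lt a⟩, hi⟩
  choose f hf using this
  refine mk_le_of_injective (f := f) fun a b hab => coe_inj ?_
  rw [← hf a, ← hf b, hab]

theorem IsMagidor.enum (hM : IsMagidor lam) (F : Set lam.ord.ToType → lam.ord.ToType) :
    ∃ e : lam.ord.ToType → lam.ord.ToType, StrictMono e ∧ ∃ γ, ∀ x, x ⊆ Set.range e →
      #x = ℵ₀ → BddAbove x → F x ≠ γ := by
  obtain ⟨A, hA, hne⟩ := hM fun x => F x.1
  obtain ⟨γ, hγ⟩ := (Set.ne_univ_iff_exists_notMem _).1 hne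
  have h1 : typeLT lam.ord.ToType ≤ typeLT A := by
    rw [type_toType, ord_le, card_type, hA]
  obtain ⟨g⟩ := type_le_iff'.1 h1
  refine ⟨fun i => (g i).1, fun i j hij => g.map_rel_iff.2 hij, γ, fun x hx hc hb hF => ?_⟩
  refine hγ ⟨⟨x, hc, hb⟩, fun j hj => ?_, hF⟩
  obtain ⟨i, rfl⟩ := hx hj
  exact (g i).2

end Levels

end Pool.Agent.Lib.MP_6ff041_lc
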