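import Pool.Agent.Lib.MP_6ff041_lc.Levels

/-! The diagonal Prikry forcing preserves Magidor cardinals: the forcing part. -/

set_option autoImplicit false

universe u

namespace Pool.Agent.Lib.MP_6ff041_lc

open Cardinal Function Ordinal

section SetNames

variable {P : Type u} [Preorder P] {lam : Cardinal.{u}}

/-- canonical name of a set of ordinals below `lam` -/
noncomputable def sn (one : P) (x : Set lam.ord.ToType) : PName P :=
  PName.mk x (fun i => oN one (i.1 : Ordinal.{u})) (fun _ => one)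

theorem forcesMem_sn {one : P} (h1 : ∀ p : P, p ≤ one) {z : PName P} {x : Set lam.ord.ToType}
    {p : P} : ForcesMem z (sn one x) p ↔
      ∀ q ≤ p, ∃ r ≤ q, ∃ i ∈ x, ForcesEq z (oN one (i : Ordinal.{u})) r := by
  rw [sn, forcesMem_mk]
  constructor
  · intro h q hq
    obtain ⟨r, hr, i, -, h'⟩ := h q hq
    exact ⟨r, hr, i.1, i.2, h'.symm⟩
  · intro h q hq
    obtain ⟨r, hr, i, hi, h'⟩ := h q hq
    exact ⟨r, hr, ⟨i, hi⟩, h1 _, h'.symm⟩

end SetNames

variable {X : ℕ → Type u} {U : ∀ n, Ultrafilter (X n)} {κ : ℕ → Cardinal.{u}}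
  {lam : Cardinal.{u}}

theorem forces_isCardinal (S : Setup κ U) (hκ : StrictMono κ) (hlam : lam = ⨆ n, κ n)
    (p : Cond U) : Forces (Fm.isCardinal (oN (Cond.one U) lam.ord)) p := by
  have h1 : ∀ p : Cond U, p ≤ Cond.one U := le_one
  refine ⟨forces_isOrdinal_on h1 _ _, ?_⟩
  simp only [forces_all, forces_imp, forces_mem, forces_not, Fm.equinum, forces_ex]
  intro y q _ hy r hr hex
  obtain ⟨r1, hr1, η, hη, hyη⟩ := (forcesMem_on h1).1 hy r hr
  obtain ⟨r2, hr2, g, hg⟩ := hex r1 hr1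
  obtain ⟨m, hm⟩ := exists_lt_kappa hlam hη
  obtain ⟨n, w, B, hn, hw⟩ := exists_cnd_le' r2 (m + 1)
  have hω := (S.unc n).le
  have hmn : κ m < κ n := hκ (by omega)
  have hηc : η.card < κ m := lt_ord.1 hm
  have hι : #(η.ToType × (κ m).ord.ToType) < κ n := by
    rw [mk_prod, Cardinal.lift_id, Cardinal.lift_id, mk_toType, mk_ord_toType]
    exact mul_lt_of_lt hω (hηc.trans hmn) hmn
  obtain ⟨C, hC, hdec⟩ := S.decide n hι (fun z => Fm.mem
    (op (Cond.one U) (oN (Cond.one U) (z.1 : Ordinal.{u})) (oN (Cond.one U) (z.2 : Ordinal.{u})))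
    g) w B
  have hp2 : cnd n w C ≤ r2 := hC.trans hw
  obtain ⟨-, -, honto, hfun, -⟩ := (forces_bij h1).1 (hg.mono hp2)
  have key : ∀ b : (κ m).ord.ToType, ∃ a : η.ToType, ForcesMem
      (op (Cond.one U) (oN (Cond.one U) (a : Ordinal.{u})) (oN (Cond.one U) (b : Ordinal.{u})))
      g (cnd n w C) := by
    intro b
    have hb : (b : Ordinal.{u}) < lam.ord :=
      (coe_lt b).trans (ord_lt_ord.2 (kappa_lt hκ hlam m))
    obtain ⟨s, hs, a, ha⟩ := honto _ _ le_rfl ((forcesMem_on_on h1).2 hb) _ le_rfl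
    have hay : ForcesMem a (oN (Cond.one U) η) s :=
      (bij_mem h1 (hg.mono (hs.trans hp2)) ha).1.congr_right
        (hyη.mono (hs.trans (hp2.trans hr2)))
    obtain ⟨s', hs', a', ha', he⟩ := (forcesMem_on h1).1 hay s le_rfl
    refine ⟨ToType.mk ⟨a', ha'⟩, hdec (ToType.mk ⟨a', ha'⟩, b) s' (hs'.trans hs) ?_⟩
    rw [forces_mem]
    simpa using (ha.mono hs').congr_left (op_congr h1 he (ForcesEq.refl _ _))
  choose c hc using key
  have hinj : Injective c := by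
    intro b b' hbb
    have := hfun _ _ _ _ le_rfl (hc b) (hbb ▸ hc b')
    exact coe_inj ((forcesEq_on h1).1 this)
  have := mk_le_of_injective hinj
  rw [mk_ord_toType, mk_toType] at this
  exact absurd hηc (not_lt.2 this)

/-- A name forced to be a countably infinite bounded subset of `lam` is decided as a ground-model
countably infinite set. -/
theorem decode (S : Setup κ U) (hκ : StrictMono κ) (hlam : lam = ⨆ n, κ n)
    {τ : PName (Cond U)} {r : Cond U} (hc : Forces (Fm.countablyInfinite τ) r)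
    (hb : Forces (Fm.boundedIn τ (oN (Cond.one U) lam.ord)) r) (k : ℕ) :
    ∃ n w B, ∃ x : Set lam.ord.ToType, k ≤ n ∧ cnd n w B ≤ r ∧ x ⊆ lev κ lam n ∧ #x = ℵ₀ ∧
      ForcesEq τ (sn (Cond.one U) x) (cnd n w B) := by
  have h1 : ∀ p : Cond U, p ≤ Cond.one U := le_one
  simp only [Fm.boundedIn, forces_ex, forces_and, forces_all, forces_imp, forces_mem, forces_or,
    forces_eq] at hb
  simp only [Fm.countablyInfinite, Fm.equinum, forces_ex, forces_and] at hc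
  obtain ⟨r1, hr1, b, hbl, hb⟩ := hb r le_rfl
  obtain ⟨r2, hr2, β, hβ, hbβ⟩ := (forcesMem_on h1).1 hbl r1 le_rfl
  obtain ⟨r3, hr3, w0, hw0, hc⟩ := hc r2 (hr2.trans hr1)
  obtain ⟨r4, hr4, g, hg⟩ := hc r3 le_rfl
  obtain ⟨β', hβ'⟩ := exists_coe hβ
  obtain ⟨m, hm⟩ := lev_cov hlam β'
  obtain ⟨n, w, B, hn, hw⟩ := exists_cnd_le' r4 (max k m)
  have hω := (S.unc n).le
  have hMn := lev_card (lam := lam) hκ S.unc n
  have hι : #(lev κ lam n ⊕ ULift.{u} ℕ × lev κ lam n) < κ n := by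
    rw [mk_sum, Cardinal.lift_id, Cardinal.lift_id, mk_prod, Cardinal.lift_id, Cardinal.lift_id]
    refine add_lt_of_lt hω hMn (mul_lt_of_lt hω ?_ hMn)
    simpa using S.unc n
  obtain ⟨C, hC, hdec⟩ := S.decide n hι (fun z => match z with
    | Sum.inl i => Fm.mem (oN (Cond.one U) (i.1 : Ordinal.{u})) τ
    | Sum.inr z => Fm.mem (op (Cond.one U) (oN (Cond.one U) (z.1.down : Ordinal.{u}))
        (oN (Cond.one U) (z.2.1 : Ordinal.{u}))) g) w B
  set p := cnd n w C with hp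
  have hp4 : p ≤ r4 := hC.trans hw
  have hp2 : p ≤ r2 := hp4.trans (hr4.trans hr3)
  have hp1 : p ≤ r1 := hp2.trans hr2
  let x : Set lam.ord.ToType :=
    {i | i ∈ lev κ lam n ∧ ForcesMem (oN (Cond.one U) (i : Ordinal.{u})) τ p}
  have factA : ∀ z, ∀ q ≤ p, ForcesMem z τ q → ∀ q' ≤ q, ∃ s ≤ q', ∃ i ∈ x,
      ForcesEq z (oN (Cond.one U) (i : Ordinal.{u})) s := by
    intro z q hq hz q' hq'
    have : ∃ s ≤ q', ∃ a ≤ β, ForcesEq z (oN (Cond.one U) a) s := by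
      obtain ⟨s, hs, h | h⟩ := hb z q (hq.trans hp1) hz q' hq'
      · obtain ⟨s', hs', a, ha, h'⟩ := (forcesMem_on h1).1
          (h.congr_right (hbβ.mono (hs.trans (hq'.trans (hq.trans hp2))))) s le_rfl
        exact ⟨s', hs'.trans hs, a, ha.le, h'⟩
      · exact ⟨s, hs, β, le_rfl, h.trans (hbβ.mono (hs.trans (hq'.trans (hq.trans hp2))))⟩
    obtain ⟨s, hs, a, ha, h⟩ := this
    obtain ⟨i, rfl⟩ := exists_coe (ha.trans_lt hβ)
    have hi : i ∈ lev κ lam n :=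
      lev_low n i β' (coe_le_coe.1 (hβ' ▸ ha)) (lev_mono hκ (by omega) hm)
    refine ⟨s, hs, i, ⟨hi, ?_⟩, h⟩
    exact hdec (Sum.inl ⟨i, hi⟩) s (hs.trans (hq'.trans hq))
      (forces_mem.2 ((hz.mono (hs.trans hq')).congr_left h))
  have hgp := hg.mono hp4
  obtain ⟨-, htot, honto, hfun, hinj⟩ := (forces_bij h1).1 hgp
  have hw0p : ForcesEq w0 (oN (Cond.one U) ω) p :=
    eq_omega_of_isOmega h1 (hw0.mono (hp4.trans hr4))
  have hR1 : ∀ j : ℕ, ∃ i : x, ForcesMem (op (Cond.one U) (oN (Cond.one U) (j : Ordinal.{u}))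
      (oN (Cond.one U) (i.1 : Ordinal.{u}))) g p := by
    intro j
    have hj : ForcesMem (oN (Cond.one U) (j : Ordinal.{u})) w0 p :=
      ((forcesMem_on_on h1).2 (natCast_lt_omega0 j)).congr_right hw0p.symm
    obtain ⟨s, hs, b', hb'⟩ := htot _ _ le_rfl hj _ le_rfl
    obtain ⟨s', hs', i, hi, he⟩ := factA b' s hs (bij_mem h1 (hgp.mono hs) hb').2 s le_rfl
    refine ⟨⟨i, hi⟩, hdec (Sum.inr (⟨j⟩, ⟨i, hi.1⟩)) s' (hs'.trans hs) ?_⟩
    exact forces_mem.2 ((hb'.mono hs').congr_left (op_congr h1 (ForcesEq.refl _ _) he))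
  have hR2 : ∀ i : x, ∃ j : ℕ, ForcesMem (op (Cond.one U) (oN (Cond.one U) (j : Ordinal.{u}))
      (oN (Cond.one U) (i.1 : Ordinal.{u}))) g p := by
    intro i
    obtain ⟨s, hs, a, ha⟩ := honto _ _ le_rfl i.2.2 _ le_rfl
    have ha' : ForcesMem a (oN (Cond.one U) ω) s :=
      (bij_mem h1 (hgp.mono hs) ha).1.congr_right (hw0p.mono hs)
    obtain ⟨s', hs', a', ha'', he⟩ := (forcesMem_on h1).1 ha' s le_rfl
    obtain ⟨j, rfl⟩ := lt_omega0.1 ha''
    refine ⟨j, hdec (Sum.inr (⟨j⟩, ⟨i.1, i.2.1⟩)) s' (hs'.trans hs) ?_⟩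
    exact forces_mem.2 ((ha.mono hs').congr_left (op_congr h1 he (ForcesEq.refl _ _)))
  choose c hc using hR1
  have hcinj : Injective c := by
    intro j j' hjj
    have := hinj _ _ _ _ le_rfl (hc j) (hjj ▸ hc j')
    exact Nat.cast_injective ((forcesEq_on h1).1 this)
  have hcsurj : Surjective c := by
    intro i
    obtain ⟨j, hj⟩ := hR2 i
    exact ⟨j, Subtype.ext (coe_inj ((forcesEq_on h1).1 (hfun _ _ _ _ le_rfl (hc j) hj)))⟩
  have : Countable x := hcsurj.countable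
  have : Infinite x := Infinite.of_injective c hcinj
  refine ⟨n, w, C, x, by omega, hp1.trans hr1, fun i hi => hi.1, mk_eq_aleph0 x, ?_⟩
  refine ForcesEq.ext (fun z q hq hz => (forcesMem_sn h1).2 (factA z q hq hz))
    (fun z q hq hz => ForcesMem.of_dense fun q' hq' => ?_)
  obtain ⟨s, hs, i, hi, he⟩ := (forcesMem_sn h1).1 hz q' hq'
  exact ⟨s, hs, (hi.2.mono (hs.trans (hq'.trans hq))).congr_left he.symm⟩

section Strategy

variable {L : Type u} {M : ℕ → Set L} {n₁ : ℕ} {t₁ : ∀ i, X i} {C : Big U}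
  {E : ℕ → (∀ i, X i) → Set (L × L)}

/-- the name collecting `F i j` for the pairs `(i, j)` played along the generic sequence -/
def nm (n₁ : ℕ) (C : Big U) (E : ℕ → (∀ i, X i) → Set (L × L)) (F : L → L → PName (Cond U)) :
    PName (Cond U) :=
  PName.mk {z : ℕ × (∀ i, X i) × L × L // n₁ ≤ z.1 ∧ z.2.2 ∈ E z.1 z.2.1}
    (fun z => F z.1.2.2.1 z.1.2.2.2) (fun z => cnd z.1.1 z.1.2.1 C)

theorem chain (hM : Monotone M) {n : ℕ} {w : ∀ i, X i}
    (hext : ∀ k, n₁ ≤ k → k < n → EndExt M k (E k w) (E (k + 1) w)) {k k' : ℕ} (hk : n₁ ≤ k)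
    (hkk : k ≤ k') (hk' : k' ≤ n) : EndExt M k (E k w) (E k' w) := by
  induction k', hkk using Nat.le_induction with
  | base => exact ⟨le_rfl, fun _ _ h _ => h⟩
  | succ l hl ih =>
    obtain ⟨a, b⟩ := ih (by omega)
    obtain ⟨a', b'⟩ := hext l (by omega) (by omega)
    exact ⟨a.trans a', fun i j h hj => b i j (b' i j h (hM hl hj)) hj⟩

theorem nm_elim (hM : Monotone M)
    (hEc : ∀ n w w', (∀ i < n, w i = w' i) → E n w = E n w')
    (hext : ∀ n w B, cnd n w B ≤ cnd n₁ t₁ C →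
      ∀ k, n₁ ≤ k → k < n → EndExt M k (E k w) (E (k + 1) w))
    {F : L → L → PName (Cond U)} {z : PName (Cond U)} {s : Cond U} (hs : s ≤ cnd n₁ t₁ C)
    (hz : ForcesMem z (nm n₁ C E F) s) :
    ∃ n w B i j, cnd n w B ≤ s ∧ (i, j) ∈ E n w ∧ ForcesEq z (F i j) (cnd n w B) := by
  rw [nm, forcesMem_mk] at hz
  obtain ⟨r, hr, ⟨⟨k, v, i, j⟩, hk, hij⟩, hle, he⟩ := hz s le_rfl
  obtain ⟨w, B, hw⟩ := exists_cnd r
  generalize r.len = n at hw
  subst hw
  obtain ⟨hkn, a1, -, -⟩ := cnd_le_cnd.1 hle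
  refine ⟨n, w, B, i, j, hr, ?_, he.symm⟩
  have h1 : (i, j) ∈ E k w := by rw [hEc k w v a1]; exact hij
  exact (chain hM (hext n w B (hr.trans hs)) hk hkn le_rfl).1 h1

theorem nm_intro {F : L → L → PName (Cond U)} {n : ℕ} {w : ∀ i, X i} {B : Big U} {i j : L}
    (hs : cnd n w B ≤ cnd n₁ t₁ C) (hij : (i, j) ∈ E n w) :
    ForcesMem (F i j) (nm n₁ C E F) (cnd n w B) := by
  obtain ⟨hn, -, -, a3⟩ := cnd_le_cnd.1 hs
  refine forcesMem_of_index
    (β := {z : ℕ × (∀ i, X i) × L × L // n₁ ≤ z.1 ∧ z.2.2 ∈ E z.1 z.2.1})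
    (B := fun z => F z.1.2.2.1 z.1.2.2.2) (d := fun z => cnd z.1.1 z.1.2.1 C)
    ⟨(n, w, i, j), hn, hij⟩ ?_
  exact cnd_le_cnd.2 ⟨le_rfl, fun _ _ => rfl, fun i h1 h2 => absurd h2 (not_lt.2 h1), a3⟩

theorem E_mono (hM : Monotone M)
    (hEc : ∀ n w w', (∀ i < n, w i = w' i) → E n w = E n w')
    (hext : ∀ n w B, cnd n w B ≤ cnd n₁ t₁ C →
      ∀ k, n₁ ≤ k → k < n → EndExt M k (E k w) (E (k + 1) w))
    {n n' : ℕ} {w w' : ∀ i, X i} {B B' : Big U} (h : cnd n w B ≤ cnd n₁ t₁ C)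
    (h' : cnd n' w' B' ≤ cnd n w B) : EndExt M n (E n w) (E n' w') := by
  obtain ⟨hn, a1, -, -⟩ := cnd_le_cnd.1 h'
  rw [← hEc n w' w a1]
  exact chain hM (hext n' w' B' (h'.trans h)) (cnd_le_cnd.1 h).1 hn le_rfl

end Strategy

/-- the value of the colouring decided by a stem -/
def ValOf (f : PName (Cond U)) (A : Big U) (n : ℕ) (t : ∀ i, X i) (x : Set lam.ord.ToType)
    (γ : lam.ord.ToType) : Prop :=
  ForcesMem (op (Cond.one U) (sn (Cond.one U) x) (oN (Cond.one U) (γ : Ordinal.{u}))) f (cnd n t A)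

theorem strategy_forces (S : Setup κ U) (hκ : StrictMono κ) (hlam : lam = ⨆ n, κ n)
    {f : PName (Cond U)} {A : Big U}
    (hdec : ∀ n t (x : Set lam.ord.ToType), x ⊆ lev κ lam n → ∀ γ ∈ lev κ lam n,
      Dec (Fm.mem (op (Cond.one U) (sn (Cond.one U) x) (oN (Cond.one U) (γ : Ordinal.{u}))) f)
        (cnd n t A))
    {γ : lam.ord.ToType} {h : ℕ → ℕ} {n₁ : ℕ} {t₁ : ∀ i, X i} (hγ : γ ∈ lev κ lam n₁)
    {C : Big U} {E : ℕ → (∀ i, X i) → Set (lam.ord.ToType × lam.ord.ToType)}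
    (hCA : ∀ m, C.1 m ⊆ A.1 m)
    (hEc : ∀ n w w', (∀ i < n, w i = w' i) → E n w = E n w')
    (hE : ∀ n w B, cnd n w B ≤ cnd n₁ t₁ C →
      Legal (lev κ lam) h n (E n w) ∧ ¬ Hit (ValOf f A) γ n (tr U n w) (E n w) ∧
        ∀ k, n₁ ≤ k → k < n → EndExt (lev κ lam) k (E k w) (E (k + 1) w)) :
    ∃ An, Forces (Fm.and (Fm.sub An (oN (Cond.one U) lam.ord))
      (Fm.and (Fm.equinum An (oN (Cond.one U) lam.ord))
        (Fm.not (Fm.imageIs f An (oN (Cond.one U) lam.ord))))) (cnd n₁ t₁ C) := by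
  have h1 : ∀ p : Cond U, p ≤ Cond.one U := le_one
  have hM := lev_mono (lam := lam) hκ
  have hext : ∀ n w B, cnd n w B ≤ cnd n₁ t₁ C →
      ∀ k, n₁ ≤ k → k < n → EndExt (lev κ lam) k (E k w) (E (k + 1) w) :=
    fun n w B hle => (hE n w B hle).2.2
  let FA : lam.ord.ToType → lam.ord.ToType → PName (Cond U) :=
    fun _ j => oN (Cond.one U) (j : Ordinal.{u})
  let Fg : lam.ord.ToType → lam.ord.ToType → PName (Cond U) := fun i j =>
    op (Cond.one U) (oN (Cond.one U) (j : Ordinal.{u})) (oN (Cond.one U) (i : Ordinal.{u}))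
  refine ⟨nm n₁ C E FA, forces_sub.2 fun z q hq hz => ?_,
    forces_ex_intro (nm n₁ C E Fg) ((forces_bij h1).2 ⟨?_, ?_, ?_, ?_, ?_⟩), ?_⟩
  · refine ForcesMem.of_dense fun r hr => ?_
    obtain ⟨n, w, B, i, j, hle, -, he⟩ := nm_elim hM hEc hext (hr.trans hq) (hz.mono hr)
    exact ⟨_, hle, forcesMem_on_of_eq h1 he (coe_lt j)⟩
  · intro z q hq hz r hr
    obtain ⟨n, w, B, i, j, hle, hij, he⟩ := nm_elim hM hEc hext (hr.trans hq) (hz.mono hr)
    exact ⟨_, hle, _, _, he, nm_intro (F := FA) (hle.trans (hr.trans hq)) hij,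
      (forcesMem_on_on h1).2 (coe_lt i)⟩
  · intro a q hq ha r hr
    obtain ⟨n, w, B, i, j, hle, hij, he⟩ := nm_elim hM hEc hext (hr.trans hq) (ha.mono hr)
    exact ⟨_, hle, _, (nm_intro (F := Fg) (hle.trans (hr.trans hq)) hij).congr_left
      (op_congr h1 he.symm (ForcesEq.refl _ _))⟩
  · intro b q hq hb r hr
    obtain ⟨s, hs, β, hβ, he⟩ := (forcesMem_on h1).1 hb r hr
    obtain ⟨i, rfl⟩ := exists_coe hβ
    obtain ⟨m, hm⟩ := lev_cov hlam i
    obtain ⟨n, w, B, hn, hw⟩ := exists_cnd_le' s (h m)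
    have hle := hw.trans (hs.trans (hr.trans hq))
    obtain ⟨j, hij⟩ := (hE n w B hle).1.dom m hn i hm
    exact ⟨_, hw.trans hs, _, (nm_intro (F := Fg) hle hij).congr_left
      (op_congr h1 (ForcesEq.refl _ _) (he.mono hw).symm)⟩
  · intro a b c q hq hb hc
    refine ForcesEq.of_dense fun r hr => ?_
    obtain ⟨n, w, B, i, j, hle, hij, he⟩ := nm_elim hM hEc hext (hr.trans hq) (hb.mono hr)
    have hle1 := hle.trans (hr.trans hq)
    obtain ⟨n', w', B', i', j', hle', hij', he'⟩ :=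
      nm_elim hM hEc hext hle1 (hc.mono (hle.trans hr))
    have he1 := he.mono hle'
    have hjj : j = j' := coe_inj ((forcesEq_on h1).1
      ((op_inj_left h1 he1).symm.trans (op_inj_left h1 he')))
    subst hjj
    have hii : i = i' := (hE n' w' B' (hle'.trans hle1)).1.inj _ _ _
      ((E_mono hM hEc hext hle1 hle').1 hij) hij'
    subst hii
    exact ⟨_, hle'.trans hle, (op_inj_right h1 he1).trans (op_inj_right h1 he').symm⟩
  · intro a b c q hq ha hb
    refine ForcesEq.of_dense fun r hr => ?_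
    obtain ⟨n, w, B, i, j, hle, hij, he⟩ := nm_elim hM hEc hext (hr.trans hq) (ha.mono hr)
    have hle1 := hle.trans (hr.trans hq)
    obtain ⟨n', w', B', i', j', hle', hij', he'⟩ :=
      nm_elim hM hEc hext hle1 (hb.mono (hle.trans hr))
    have he1 := he.mono hle'
    have hii : i = i' := coe_inj ((forcesEq_on h1).1
      ((op_inj_right h1 he1).symm.trans (op_inj_right h1 he')))
    subst hii
    have hjj : j = j' := (hE n' w' B' (hle'.trans hle1)).1.fn _ _ _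
      ((E_mono hM hEc hext hle1 hle').1 hij) hij'
    subst hjj
    exact ⟨_, hle'.trans hle, (op_inj_left h1 he1).trans (op_inj_left h1 he').symm⟩
  · refine forces_not.2 fun s hs him => ?_
    simp only [Fm.imageIs, forces_all, forces_iff] at him
    have := (him (oN (Cond.one U) (γ : Ordinal.{u}))).1 s le_rfl
      (forces_mem.2 ((forcesMem_on_on h1).2 (coe_lt γ)))
    obtain ⟨s1, hs1, τ, ⟨hsub, hci, hbd⟩, happ⟩ := forces_ex.1 this s le_rfl
    obtain ⟨n, w, B, x, hn, hw, hx, hxc, he⟩ := decode S hκ hlam hci hbd n₁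
    have hle : cnd n w B ≤ cnd n₁ t₁ C := hw.trans (hs1.trans hs)
    refine (hE n w B hle).2.1 ⟨x, fun j hj => ?_, hxc, ?_⟩
    · have hj1 : ForcesMem (oN (Cond.one U) (j : Ordinal.{u})) (sn (Cond.one U) x) (cnd n w B) :=
        (forcesMem_sn h1).2 fun q _ => ⟨q, le_rfl, j, hj, ForcesEq.refl _ _⟩
      have hj2 := forces_sub.1 hsub _ _ hw (hj1.congr_right he.symm)
      obtain ⟨n', w', B', i', j', hle', hij', he'⟩ := nm_elim hM hEc hext hle hj2
      have hjj : j = j' := coe_inj ((forcesEq_on h1).1 he')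
      subst hjj
      exact ⟨i', (E_mono hM hEc hext hle hle').2 _ _ hij' (hx hj)⟩
    · rw [ValOf, cnd_tr]
      refine hdec n w x hx γ (hM hn hγ) (cnd n w B) ?_ ?_
      · refine cnd_le_cnd.2 ⟨le_rfl, fun _ _ => rfl, fun i h1 h2 => absurd h2 (not_lt.2 h1),
          fun m hm => ((cnd_le_cnd.1 hle).2.2.2 m hm).trans (hCA m)⟩
      · exact forces_mem.2 ((((forces_app h1).1 happ).mono hw).congr_left
          (op_congr h1 he (ForcesEq.refl _ _)))

theorem forces_magidor (S : Setup κ U) (hκ : StrictMono κ) (hlam : lam = ⨆ n, κ n)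
    (hpow : ∀ n c, c < κ n → 2 ^ c < κ n) (hM : IsMagidor lam) (p : Cond U) :
    Forces (Fm.magidor (oN (Cond.one U) lam.ord)) p := by
  classical
  have h1 : ∀ p : Cond U, p ≤ Cond.one U := le_one
  refine ⟨forces_isCardinal S hκ hlam p, forces_all.2 fun f => forces_imp.2 fun q _ hf => ?_⟩
  refine forces_ex.2 fun r hr => ?_
  have hfun := (forces_functional h1).1 hf.2.2
  obtain ⟨t, A₀, hr0⟩ := exists_cnd r
  generalize r.len = n₀ at hr0
  subst hr0
  have hcard := lev_card (lam := lam) hκ S.unc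
  have hι : ∀ n, #(Set (lev κ lam n) × lev κ lam n) < κ n := by
    intro n
    rw [mk_prod, Cardinal.lift_id, Cardinal.lift_id, mk_set]
    exact mul_lt_of_lt (S.unc n).le (hpow n _ (hcard n)) (hcard n)
  obtain ⟨A, hA, hdec0⟩ := S.fusion hι (fun n z => Fm.mem (op (Cond.one U)
    (sn (Cond.one U) (Subtype.val '' z.1)) (oN (Cond.one U) (z.2.1 : Ordinal.{u}))) f) A₀
  have hdec : ∀ n t (x : Set lam.ord.ToType), x ⊆ lev κ lam n → ∀ γ ∈ lev κ lam n,
      Dec (Fm.mem (op (Cond.one U) (sn (Cond.one U) x) (oN (Cond.one U) (γ : Ordinal.{u}))) f)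
        (cnd n t A) := by
    intro n t x hx γ hγ
    have := hdec0 n t (Subtype.val ⁻¹' x, ⟨γ, hγ⟩)
    rwa [Subtype.image_preimage_coe, Set.inter_eq_right.2 hx] at this
  have hle0 : cnd n₀ (tr U n₀ t) A ≤ cnd n₀ t A₀ := by
    rw [cnd_tr]
    exact cnd_le_cnd.2 ⟨le_rfl, fun _ _ => rfl, fun i h1 h2 => absurd h2 (not_lt.2 h1),
      fun m _ => hA m⟩
  by_cases H : ∀ n t', t' ∈ TT U n → cnd n t' A ≤ cnd n₀ (tr U n₀ t) A → ∀ γ ∈ lev κ lam n,
      ∀ h E, Legal (lev κ lam) h n E → ∃ ξ, Lose U (lev κ lam) (ValOf f A) γ h ξ n t' E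
  · exfalso
    obtain ⟨s, hs0, hstep, hs⟩ := S.ground (lev_mono hκ) lev_low (lev_cov hlam)
      (lev_bdd hκ hlam) hcard hpow A (tr_mem n₀ t) H
    have hanti : Antitone fun k => cnd (n₀ + k) (s k) A := antitone_nat_of_succ_le hstep
    obtain ⟨i₀, -⟩ := exists_coe (ord_lt_ord.2 (kappa_lt hκ hlam 0))
    have : Nonempty lam.ord.ToType := ⟨i₀⟩
    obtain ⟨e, he, γ, hγ⟩ := hM.enum fun x =>
      Classical.epsilon fun γ => ∃ k, ValOf f A (n₀ + k) (s k) x γ
    obtain ⟨k, x, hx, hxc, hxb, hv⟩ := hs e he (fun i => he.le_apply) γ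
    obtain ⟨k', hv'⟩ := Classical.epsilon_spec
      (p := fun γ => ∃ k, ValOf f A (n₀ + k) (s k) x γ) ⟨γ, k, hv⟩
    refine hγ x hx hxc hxb (coe_inj ((forcesEq_on h1).1 (hfun _ _ _
      (cnd (n₀ + max k k') (s (max k k')) A) ((hs0 _).trans (hle0.trans hr))
      (ForcesMem.mono hv' (hanti (le_max_right _ _)))
      (ForcesMem.mono hv (hanti (le_max_left _ _))))))
  · push Not at H
    obtain ⟨n₁, t₁, ht₁, hle₁, γ, hγ, h, E₁, hE₁, hN⟩ := H
    obtain ⟨C, E, hCA, hEc, hE⟩ := S.strategy A ht₁ hE₁ hN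
    refine ⟨cnd n₁ t₁ C, le_trans ?_ (hle₁.trans hle0),
      strategy_forces S hκ hlam hdec hγ hCA hEc hE⟩
    exact cnd_le_cnd.2 ⟨le_rfl, fun _ _ => rfl, fun i h1 h2 => absurd h2 (not_lt.2 h1),
      fun m _ => hCA m⟩

end Pool.Agent.Lib.MP_6ff041_lc
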