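import Pool.Agent.Lib.MP_6ff041_lc.Forcing

/-! The Prikry property of the diagonal Prikry forcing, and simultaneous decisions. -/

set_option autoImplicit false

universe u

namespace Pool.Agent.Lib.MP_6ff041_lc

open Cardinal Function

variable {X : ℕ → Type u} {U : ∀ n, Ultrafilter (X n)}

/-- sequences of large sets -/
structure Big (U : ∀ n, Ultrafilter (X n)) : Type u where
  sets : ∀ m, Set (X m)
  mem : ∀ m, sets m ∈ U m

/-- the condition with stem the first `n` entries of `t` and large sets `A m`, `m ≥ n` -/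
def cnd (n : ℕ) (t : ∀ i, X i) (A : Big U) : Cond U where
  len := n
  stem := fun i _ => t i
  upper := fun m _ => A.1 m
  upper_mem := fun m _ => A.2 m

theorem cnd_le_cnd {n n' : ℕ} {t t' : ∀ i, X i} {A A' : Big U} :
    cnd n' t' A' ≤ cnd n t A ↔ n ≤ n' ∧ (∀ i < n, t' i = t i) ∧
      (∀ i, n ≤ i → i < n' → t' i ∈ A.1 i) ∧ ∀ m, n' ≤ m → A'.1 m ⊆ A.1 m := by
  constructor
  · rintro ⟨h, a, b, c⟩
    exact ⟨h, a, fun i h1 h2 => b i h2 h1, c⟩
  · rintro ⟨h, a, b, c⟩
    exact ⟨h, a, fun i h2 h1 => b i h1 h2, c⟩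

theorem le_one (p : Cond U) : p ≤ Cond.one U :=
  ⟨Nat.zero_le _, fun _ hi => absurd hi (Nat.not_lt_zero _), fun _ _ _ => Set.mem_univ _,
    fun _ _ => Set.subset_univ _⟩

/-- a default sequence -/
noncomputable def dflt (U : ∀ n, Ultrafilter (X n)) (i : ℕ) : X i :=
  (Ultrafilter.nonempty_of_mem (f := U i) Filter.univ_mem).some

theorem exists_cnd (p : Cond U) : ∃ t A, p = cnd p.len t A := by
  classical
  obtain ⟨n, s, B, hB⟩ := p
  refine ⟨fun i => if h : i < n then s i h else dflt U i,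
    ⟨fun m => if h : n ≤ m then B m h else Set.univ, fun m => ?_⟩, ?_⟩
  · by_cases h : n ≤ m
    · simpa [h] using hB m h
    · simp only [h, dif_neg, not_false_eq_true]
      exact Filter.univ_mem
  · simp only [cnd, Cond.mk.injEq, heq_eq_eq, true_and]
    constructor
    · funext i hi
      simp [hi]
    · funext m hm
      simp [hm]

theorem exists_cnd_le (r : Cond U) (n : ℕ) (hn : r.len ≤ n) : ∃ w B, cnd n w B ≤ r := by
  classical
  obtain ⟨t, A, h⟩ := exists_cnd r
  generalize r.len = k at h hn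
  subst h
  refine ⟨fun i => if i < k then t i else (Ultrafilter.nonempty_of_mem (A.2 i)).some, A, ?_⟩
  refine cnd_le_cnd.2 ⟨hn, fun i hi => ?_, fun i hi _ => ?_, fun _ _ => le_rfl⟩
  · simp [hi]
  · simp only [not_lt.2 hi, if_false]
    exact Set.Nonempty.some_mem _

theorem exists_cnd_le' (r : Cond U) (k : ℕ) : ∃ n w B, k ≤ n ∧ cnd n w B ≤ r := by
  obtain ⟨w, B, h⟩ := exists_cnd_le r (max r.len k) (le_max_left _ _)
  exact ⟨_, w, B, le_max_right _ _, h⟩

/-- truncation of a sequence -/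
noncomputable def tr (U : ∀ n, Ultrafilter (X n)) (n : ℕ) (t : ∀ i, X i) : ∀ i, X i :=
  fun i => if i < n then t i else dflt U i

/-- the truncated sequences of length `n` -/
def TT (U : ∀ n, Ultrafilter (X n)) (n : ℕ) : Set (∀ i, X i) := {t | ∀ i, n ≤ i → t i = dflt U i}

theorem tr_mem (n : ℕ) (t : ∀ i, X i) : tr U n t ∈ TT U n := fun i hi => by
  simp [tr, not_lt.2 hi]

theorem tr_lt {n i : ℕ} (t : ∀ i, X i) (h : i < n) : tr U n t i = t i := by simp [tr, h]

theorem tr_congr {n : ℕ} {t t' : ∀ i, X i} (h : ∀ i < n, t i = t' i) : tr U n t = tr U n t' := by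
  funext i
  by_cases hi : i < n
  · simp [tr, hi, h i hi]
  · simp [tr, hi]

theorem tr_of_mem {n : ℕ} {t : ∀ i, X i} (h : t ∈ TT U n) : tr U n t = t := by
  funext i
  by_cases hi : i < n
  · simp [tr, hi]
  · simp [tr, hi, h i (not_lt.1 hi)]

theorem tr_succ (n : ℕ) (t : ∀ i, X i) : tr U (n + 1) t = update (tr U n t) n (t n) := by
  funext i
  by_cases hi : i = n
  · subst hi
    simp [tr]
  · rw [update_of_ne hi]
    simp only [tr]
    by_cases h : i < n
    · simp [h, h.trans (Nat.lt_succ_self n)]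
    · have : ¬ i < n + 1 := by omega
      simp [h, this]

theorem update_mem_TT {n : ℕ} {t : ∀ i, X i} (h : t ∈ TT U n) (b : X n) :
    update t n b ∈ TT U (n + 1) := fun i hi => by
  rw [update_of_ne (by omega)]
  exact h i (by omega)

theorem cnd_congr {n : ℕ} {t t' : ∀ i, X i} (h : ∀ i < n, t i = t' i) (A : Big U) :
    cnd n t A = cnd n t' A := by
  simp only [cnd, Cond.mk.injEq, heq_eq_eq, true_and, and_true]
  funext i hi
  exact h i hi

theorem cnd_tr (n : ℕ) (t : ∀ i, X i) (A : Big U) : cnd n (tr U n t) A = cnd n t A :=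
  cnd_congr (fun _ hi => tr_lt t hi) A

/-- the combinatorial hypotheses on the sequence of ultrafilters -/
structure Setup (κ : ℕ → Cardinal.{u}) (U : ∀ n, Ultrafilter (X n)) : Prop where
  comp : ∀ n {ι : Type u} (s : ι → Set (X n)), #ι < κ n → (∀ i, s i ∈ U n) → ⋂ i, s i ∈ U n
  small : ∀ n m, n < m → #(X n) < κ m
  unc : ∀ n, ℵ₀ < κ n
  mono : Monotone κ

variable {κ : ℕ → Cardinal.{u}} (S : Setup κ U)
include S

theorem Setup.card_TT (n : ℕ) : ∀ m, n ≤ m → #(TT U n) < κ m := by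
  induction n with
  | zero =>
    intro m _
    have : TT U 0 = {dflt U} := by
      ext t
      simp only [TT, zero_le, forall_const, Set.mem_ofPred_eq, Set.mem_singleton_iff]
      exact ⟨fun h => funext h, fun h i => congrFun h i⟩
    rw [this, mk_singleton]
    exact one_lt_aleph0.trans (S.unc m)
  | succ n ih =>
    intro m hm
    have h1 : #(TT U (n + 1)) ≤ #(TT U n × X n) := by
      refine mk_le_of_injective
        (f := fun t : TT U (n + 1) => ((⟨tr U n t.1, tr_mem n _⟩ : TT U n), t.1 n)) ?_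
      intro t t' h
      simp only [Prod.mk.injEq, Subtype.mk.injEq] at h
      apply Subtype.ext
      rw [← tr_of_mem t.2, ← tr_of_mem t'.2, tr_succ, tr_succ, h.1, h.2]
    refine h1.trans_lt ?_
    rw [mk_prod, lift_id, lift_id]
    exact mul_lt_of_lt (S.unc m).le (ih m (by omega)) (S.small n m (by omega))

theorem Setup.inter (F : ℕ → (∀ i, X i) → Big U) :
    ∃ C : Big U, ∀ n t, t ∈ TT U n → ∀ m, n ≤ m → C.1 m ⊆ (F n t).1 m := by
  refine ⟨⟨fun m => ⋂ n ∈ Set.Iic m, ⋂ t : TT U n, (F n t.1).1 m, fun m => ?_⟩, ?_⟩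
  · refine (Filter.biInter_mem (f := (U m : Filter (X m))) (Set.finite_Iic m)).2 fun n hn => ?_
    exact S.comp m _ (S.card_TT n m hn) fun t => (F n t.1).2 m
  · intro n t ht m hm x hx
    simp only [Set.mem_Iic, Set.mem_iInter] at hx
    exact hx n hm ⟨t, ht⟩

theorem Setup.interFam (n : ℕ) {ι : Type u} (hι : #ι < κ n) (F : ι → Big U) (A : Big U) :
    ∃ C : Big U, (∀ m, C.1 m ⊆ A.1 m) ∧ ∀ i m, n ≤ m → C.1 m ⊆ (F i).1 m := by
  classical
  refine ⟨⟨fun m => A.1 m ∩ if n ≤ m then ⋂ i, (F i).1 m else Set.univ, fun m => ?_⟩,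
    fun m => Set.inter_subset_left, fun i m hm x hx => ?_⟩
  · refine Filter.inter_mem (f := (U m : Filter (X m))) (A.2 m) ?_
    by_cases h : n ≤ m
    · simp only [h, if_true]
      exact S.comp m _ (hι.trans_le (S.mono h)) fun i => (F i).2 m
    · simp [h]
  · simp only [hm, if_true, Set.mem_inter_iff, Set.mem_iInter] at hx
    exact hx.2 i

/-- `p` decides `ψ`: if some extension forces `ψ`, then `p` does. -/
def Dec {P : Type u} [Preorder P] (ψ : Fm (PName P)) (p : P) : Prop :=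
  ∀ r ≤ p, Forces ψ r → Forces ψ p

omit S in
theorem Dec.mono {P : Type u} [Preorder P] {ψ : Fm (PName P)} {p q : P} (h : Dec ψ p)
    (hq : q ≤ p) : Dec ψ q := fun r hr hψ => (h r (hr.trans hq) hψ).mono hq

/-- The Prikry lemma, uniformly in the stem. -/
theorem Setup.prikry (ψ : Fm (PName (Cond U))) :
    ∃ C : Big U, ∀ n t, Dec ψ (cnd n t C) := by
  classical
  let good : ℕ → (∀ i, X i) → Prop := fun k s => ∃ B : Big U, Forces ψ (cnd k s B)
  have hF : ∀ k s, ∃ B : Big U, good k s → Forces ψ (cnd k s B) := by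
    intro k s
    by_cases h : good k s
    · obtain ⟨B, hB⟩ := h
      exact ⟨B, fun _ => hB⟩
    · exact ⟨⟨fun _ => Set.univ, fun _ => Filter.univ_mem⟩, fun h' => absurd h' h⟩
  choose F hF using hF
  have hH : ∀ k (s : ∀ i, X i), ∃ H ∈ U k, ∀ b ∈ H, ∀ b' ∈ H,
      good (k + 1) (update s k b) → good (k + 1) (update s k b') := by
    intro k s
    rcases (U k).mem_or_compl_mem {b | good (k + 1) (update s k b)} with h | h
    · exact ⟨_, h, fun _ _ b' hb' _ => hb'⟩
    · exact ⟨_, h, fun b hb _ _ hg => absurd hg hb⟩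
  choose H hHU hH using hH
  obtain ⟨C1, hC1⟩ := S.inter F
  obtain ⟨C2, hC2⟩ := S.inter fun _ s => ⟨fun m => H m s, fun m => hHU m s⟩
  let C : Big U := ⟨fun m => C1.1 m ∩ C2.1 m, fun m =>
    Filter.inter_mem (f := (U m : Filter (X m))) (C1.2 m) (C2.2 m)⟩
  have hgood : ∀ k s, s ∈ TT U k → good k s → Forces ψ (cnd k s C) := by
    intro k s hs hg
    refine (hF k s hg).mono (cnd_le_cnd.2 ⟨le_rfl, fun _ _ => rfl, fun i h1 h2 => ?_,
      fun m hm => ?_⟩)
    · omega
    · exact Set.inter_subset_left.trans (hC1 k s hs m hm)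
  have hdown : ∀ k s, s ∈ TT U k → ∀ b ∈ C.1 k, good (k + 1) (update s k b) → good k s := by
    intro k s hs b hb hg
    refine ⟨C, Forces.of_dense fun q hq => ?_⟩
    obtain ⟨l, w, B, hl, hw⟩ := exists_cnd_le' q (k + 1)
    refine ⟨_, hw, ?_⟩
    obtain ⟨-, a1, a2, a3⟩ := cnd_le_cnd.1 (hw.trans hq)
    have hwk : w k ∈ C.1 k := a2 k le_rfl (by omega)
    have hg' : good (k + 1) (update s k (w k)) :=
      hH k s b (hC2 k s hs k le_rfl hb.2) (w k) (hC2 k s hs k le_rfl hwk.2) hg
    refine (hgood _ _ (update_mem_TT hs _) hg').mono (cnd_le_cnd.2 ⟨hl, fun i hi => ?_,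
      fun i h1 h2 => a2 i (by omega) h2, a3⟩)
    by_cases hik : i = k
    · subst hik
      simp
    · rw [update_of_ne hik]
      exact a1 i (by omega)
  refine ⟨C, fun n t r hr hψ => ?_⟩
  obtain ⟨w, B, hw⟩ := exists_cnd r
  generalize r.len = l at hw
  subst hw
  obtain ⟨hnl, a1, a2, -⟩ := cnd_le_cnd.1 hr
  have key : ∀ j k, n ≤ k → k + j = l → good k (tr U k w) := by
    intro j
    induction j with
    | zero =>
      intro k _ hk
      obtain rfl : k = l := by omega
      exact ⟨B, by rwa [cnd_tr]⟩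
    | succ j ih =>
      intro k hk hkl
      have := ih (k + 1) (by omega) (by omega)
      rw [tr_succ] at this
      exact hdown k _ (tr_mem k w) (w k) (a2 k hk (by omega)) this
  have := hgood n _ (tr_mem n w) (key (l - n) n le_rfl (by omega))
  rwa [cnd_tr, cnd_congr a1] at this

/-- Deciding fewer than `κ n` formulas by a direct extension of a condition of length `n`. -/
theorem Setup.decide (n : ℕ) {ι : Type u} (hι : #ι < κ n) (φ : ι → Fm (PName (Cond U)))
    (t : ∀ i, X i) (A : Big U) :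
    ∃ C : Big U, cnd n t C ≤ cnd n t A ∧ ∀ i, Dec (φ i) (cnd n t C) := by
  choose F hF using fun i => S.prikry (φ i)
  obtain ⟨C, hCA, hC⟩ := S.interFam n hι F A
  refine ⟨C, cnd_le_cnd.2 ⟨le_rfl, fun _ _ => rfl, fun i h1 h2 => by omega, fun m _ => hCA m⟩,
    fun i => (hF i n t).mono ?_⟩
  exact cnd_le_cnd.2 ⟨le_rfl, fun _ _ => rfl, fun i h1 h2 => by omega, fun m hm => hC i m hm⟩

/-- Deciding, for all lengths `n` and all stems of length `n` at once, a family of fewer than
`κ n` formulas. -/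
theorem Setup.fusion {ι : ℕ → Type u} (hι : ∀ n, #(ι n) < κ n)
    (φ : ∀ n, ι n → Fm (PName (Cond U))) (A : Big U) :
    ∃ C : Big U, (∀ m, C.1 m ⊆ A.1 m) ∧ ∀ n t i, Dec (φ n i) (cnd n t C) := by
  choose F hF using fun n i => S.prikry (φ n i)
  choose G hGA hG using fun n => S.interFam n (hι n) (F n) A
  obtain ⟨C, hC⟩ := S.inter fun n _ => G n
  have hC' : ∀ n m, n ≤ m → C.1 m ⊆ (G n).1 m := fun n m hm =>
    hC n (tr U n (dflt U)) (tr_mem _ _) m hm
  refine ⟨C, fun m => (hC' m m le_rfl).trans (hGA m m), fun n t i => (hF n i n t).mono ?_⟩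
  exact cnd_le_cnd.2 ⟨le_rfl, fun _ _ => rfl, fun i h1 h2 => by omega,
    fun m hm => (hC' n m hm).trans (hG n i m hm)⟩

end Pool.Agent.Lib.MP_6ff041_lc
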